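import Pool.Agent.GT.StmtsB

/-!
# Row B_CNT: the counting lemma (induction on the number of sparse indices)
-/

namespace Pool.Agent.GT.H89

open Finset

/-- B_CNT -/
theorem cnt (hden : DenStmt) (hcns : CnsStmt) : CntStmt := by
  intro K A
  induction A using Finset.induction_on with
  | empty =>
    intro η hη
    refine ⟨η / (K + 1), by positivity, ?_⟩
    intro X _ _ μ g h _ hg hh _ _ hg0 _ hg1 hh0 hh1 hcut
    refine (hden K X _ g h hg hh hg0 (fun j x => hg1 j (notMem_empty j) x) hh0 hh1 hcut).trans ?_
    have hK : (0 : ℝ) ≤ K := Nat.cast_nonneg K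
    rw [mul_div_assoc', div_le_iff₀ (by positivity)]
    nlinarith
  | insert a A ha ih => exact hcns K A a ha ih

end Pool.Agent.GT.H89
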