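import Pool.Agent.GT.StmtsB

/-!
# Row B_ONE: the weight in the average of the square of marginals can be replaced by `1`
-/

namespace Pool.Agent.GT.H89

open Finset

/-- the marginal -/
noncomputable def mg {K : ℕ} {X : Type} [Fintype X] (a : Fin K) (u : Fin K → (Fin K → X) → ℝ)
    (x : Fin K → X) : ℝ :=
  av (fun s => ∏ j ∈ univ.erase a, u j (Function.update x a s))

theorem mg_update {K : ℕ} {X : Type} [Fintype X] (a : Fin K) (u : Fin K → (Fin K → X) → ℝ)
    (x : Fin K → X) (s : X) : mg a u (Function.update x a s) = mg a u x := by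
  unfold mg
  simp only [Function.update_idem]

theorem av_coord {K : ℕ} {X : Type} [Fintype X] [Nonempty X] (a : Fin K) (f : X → ℝ) :
    av (fun y : Fin K → X => f (y a)) = av f := by
  rw [av_update a]
  simp only [Function.update_self, av_const]

theorem key {K : ℕ} {X : Type} [Fintype X] [Nonempty X] (a : Fin K) (m : (Fin K → X) → ℝ)
    (hm : Ind a m) (u v : Fin K → (Fin K → X) → ℝ) :
    av (fun z : (Fin K → X) × (Fin K → X) => m z.1 *
      ∏ j ∈ univ.erase a, (u j z.1 * v j (Function.update z.1 a (z.2 a)))) =
    av (fun x => m x * (mg a u x * mg a v x)) := by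
  rw [av_prod]
  have h1 : ∀ x : Fin K → X, av (fun y : Fin K → X => m x *
      ∏ j ∈ univ.erase a, (u j x * v j (Function.update x a (y a)))) =
      m x * ((∏ j ∈ univ.erase a, u j x) * mg a v x) := by
    intro x
    rw [av_mul_left]
    congr 1
    rw [av_coord a (fun s => ∏ j ∈ univ.erase a, (u j x * v j (Function.update x a s)))]
    simp only [prod_mul_distrib]
    rw [av_mul_left]
    rfl
  simp only [h1]
  rw [av_update a]
  have h2 : ∀ x : Fin K → X, av (fun s : X => m (Function.update x a s) *
      ((∏ j ∈ univ.erase a, u j (Function.update x a s)) * mg a v (Function.update x a s))) =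
      m x * (mg a u x * mg a v x) := by
    intro x
    simp only [mg_update, hm x]
    rw [av_mul_left, av_mul_right]
    rfl
  simp only [h2]

/-- B_ONE -/
theorem one (hslf : SlfStmt) : OneStmt := by
  classical
  intro K A a η hη
  obtain ⟨ε, hε, H⟩ := hslf K (η / 4) (by linarith)
  refine ⟨ε, hε, ?_⟩
  intro X _ _ μ g h hμ hg hh hlf hg0 hgA hg1 hh0 hh1
  set P : Fin K → (Fin K → X) → ℝ := fun j => if j ∈ A then μ j else fun _ => 1 with hP
  have hPo : ∀ j, P j = μ j ∨ P j = fun _ => 1 := by
    intro j
    rw [hP]
    by_cases hj : j ∈ A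
    · left
      simp only [hj, if_true]
    · right
      simp only [hj, if_false]
  have hgP : ∀ j x, |g j x| ≤ P j x := by
    intro j x
    rw [abs_of_nonneg (hg0 j x), hP]
    by_cases hj : j ∈ A
    · simp only [hj, if_true]
      exact hgA j hj x
    · simp only [hj, if_false]
      exact hg1 j hj x
  have hh1' : ∀ j x, |h j x| ≤ 1 := fun j x => by
    rw [abs_of_nonneg (hh0 j x)]
    exact hh1 j x
  have hm : Ind a (fun x => μ a x - 1) := fun x s => by
    show μ a (Function.update x a s) - 1 = μ a x - 1
    rw [hμ a x s]
  have e1 := H X μ a (fun j b => if b then g j else g j) (fun j _ => P j) hμ hlf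
    (fun i _ => hPo i) (fun i b => by cases b <;> simpa using hg i)
    (fun i b x => by cases b <;> simpa using hgP i x)
  have e2 := H X μ a (fun j b => if b then h j else g j)
    (fun j b => if b then fun _ => 1 else P j) hμ hlf
    (fun i b => by
      cases b
      · simpa using hPo i
      · right
        simp)
    (fun i b => by
      cases b
      · simpa using hg i
      · simpa using hh i)
    (fun i b x => by
      cases b
      · simpa using hgP i x
      · simpa using hh1' i x)
  have e3 := H X μ a (fun j b => if b then h j else h j) (fun _ _ => fun _ => 1) hμ hlf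
    (fun i _ => Or.inr rfl) (fun i b => by cases b <;> simpa using hh i)
    (fun i b x => by cases b <;> simpa using hh1' i x)
  simp only [if_true, if_false, Bool.false_eq_true] at e1 e2 e3
  rw [key a (fun x => μ a x - 1) hm g g] at e1
  rw [key a (fun x => μ a x - 1) hm g h] at e2
  rw [key a (fun x => μ a x - 1) hm h h] at e3
  have e4 : av (fun x => (μ a x - 1) *
      (av (fun s => ∏ j ∈ univ.erase a, g j (Function.update x a s)) -
        av (fun s => ∏ j ∈ univ.erase a, h j (Function.update x a s))) ^ 2) =
      av (fun x => (μ a x - 1) * (mg a g x * mg a g x)) -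
        2 * av (fun x => (μ a x - 1) * (mg a g x * mg a h x)) +
        av (fun x => (μ a x - 1) * (mg a h x * mg a h x)) := by
    rw [← av_mul_left, ← av_sub, ← av_add]
    congr 1
    funext x
    show (μ a x - 1) * (mg a g x - mg a h x) ^ 2 = _
    ring
  rw [e4]
  rw [abs_le] at e1 e2 e3 ⊢
  constructor
  · linarith [e1.1, e2.2, e3.1]
  · linarith [e1.2, e2.1, e3.2]

end Pool.Agent.GT.H89
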